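import Mathlib

/-!
# Third-order gaps of down-integers and up-integers

An integer `n` between two consecutive products `F_{k-1} F_k` and `F_k F_{k+1}` is a down-integer
essentially iff `{φ n}` lies below a threshold `ρ(n)`, which moves slowly between `1/(√5 φ)` and
`φ/√5`.  The third-order gaps are then those of a rotation by `φ` with an interval of that length.
-/

set_option autoImplicit false

namespace Pool.Agent.Results.MP_e2feb3_nt.ThirdGaps

/-- The `(a₁, a₂)`-Fibonacci walk: `w 1 = a₁`, `w 2 = a₂`, `w (k + 2) = w (k + 1) + w k` for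
`k ≥ 1` (the value `w 0 = 0` is a dummy). -/
def walk (a₁ a₂ : ℕ) : ℕ → ℕ
  | 0 => 0
  | 1 => a₁
  | 2 => a₂
  | (k + 3) => walk a₁ a₂ (k + 2) + walk a₁ a₂ (k + 1)

/-- `(a₁, a₂)` is an `n`-good pair and `s = s(n)`: the walk of `(a₁, a₂)` reaches `n` at the index
`s`, and no walk of a pair of positive integers reaches `n` at a larger index. -/
def IsSlow (n s a₁ a₂ : ℕ) : Prop :=
  1 ≤ a₁ ∧ 1 ≤ a₂ ∧ 1 ≤ s ∧ walk a₁ a₂ s = n ∧
    ∀ b₁ b₂ r : ℕ, 1 ≤ b₁ → 1 ≤ b₂ → 1 ≤ r → walk b₁ b₂ r = n → r ≤ s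

/-- The set of the down-integers. -/
def D : Set ℕ := {n | 2 ≤ n ∧ ∃ s a₁ a₂ : ℕ, IsSlow n s a₁ a₂ ∧
  (walk a₁ a₂ (s + 1) : ℤ) = ⌊Real.goldenRatio * (n : ℝ)⌋}

/-- The set of the up-integers. -/
def U : Set ℕ := {n | 2 ≤ n ∧ ∃ s a₁ a₂ : ℕ, IsSlow n s a₁ a₂ ∧
  (walk a₁ a₂ (s + 1) : ℤ) = ⌈Real.goldenRatio * (n : ℝ)⌉}

/-- The set of the gaps of order `l` of an infinite set of natural numbers with the increasing
enumeration `Nat.nth (· ∈ S)`. -/
def gaps (S : Set ℕ) (l : ℕ) : Set ℕ :=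
  {g | ∃ k : ℕ, g = Nat.nth (· ∈ S) (k + l) - Nat.nth (· ∈ S) k}

/-! ### Walks -/

lemma walk_eq (a₁ a₂ : ℕ) : ∀ k : ℕ,
    walk a₁ a₂ (k + 2) = a₂ * Nat.fib (k + 1) + a₁ * Nat.fib k
  | 0 => by simp [walk]
  | 1 => by simp [walk]
  | (k + 2) => by
    have h1 := walk_eq a₁ a₂ k
    have h2 := walk_eq a₁ a₂ (k + 1)
    have h3 : walk a₁ a₂ (k + 2 + 2) = walk a₁ a₂ (k + 1 + 2) + walk a₁ a₂ (k + 2) := rfl
    rw [h3, h1, h2, Nat.fib_add_two (n := k + 1), Nat.fib_add_two (n := k)]
    ring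

/-- The backward walk from `…, n, w`. -/
def V (n w : ℤ) : ℕ → ℤ
  | 0 => n
  | 1 => w - n
  | (i + 2) => V n w i - V n w (i + 1)

lemma V_add_two (n w : ℤ) (i : ℕ) : V n w (i + 2) = V n w i - V n w (i + 1) := rfl

lemma V_n (n w : ℤ) (i : ℕ) :
    V n w i * (Nat.fib (i + 1) : ℤ) + V n w (i + 1) * (Nat.fib i : ℤ) = n := by
  induction i with
  | zero => simp [V]
  | succ i ih =>
    have h : (Nat.fib (i + 1 + 1) : ℤ) = Nat.fib i + Nat.fib (i + 1) := by
      rw [Nat.fib_add_two]; push_cast; ring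
    rw [V_add_two, h]
    linear_combination ih

lemma V_w (n w : ℤ) (i : ℕ) :
    V n w i * (Nat.fib (i + 2) : ℤ) + V n w (i + 1) * (Nat.fib (i + 1) : ℤ) = w := by
  induction i with
  | zero => simp [V]
  | succ i ih =>
    have h : (Nat.fib (i + 1 + 2) : ℤ) = Nat.fib (i + 1) + Nat.fib (i + 2) := by
      rw [Nat.fib_add_two]; push_cast; ring
    rw [V_add_two, h]
    linear_combination ih

lemma V_closed (n w : ℤ) : ∀ i : ℕ,
    V n w i = (-1) ^ i * ((Nat.fib (i + 1) : ℤ) * n - (Nat.fib i : ℤ) * w)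
  | 0 => by simp [V]
  | 1 => by simp [V]
  | (i + 2) => by
    have h1 := V_closed n w i
    have h2 := V_closed n w (i + 1)
    have h : (Nat.fib (i + 2 + 1) : ℤ) = Nat.fib (i + 1) + Nat.fib (i + 2) := by
      rw [Nat.fib_add_two (n := i + 1)]; push_cast; ring
    have h3 : (Nat.fib (i + 2) : ℤ) = Nat.fib i + Nat.fib (i + 1) := by
      rw [Nat.fib_add_two]; push_cast; ring
    rw [V_add_two, h1, h2, h, h3]
    ring

lemma cassini (i : ℕ) :
    (Nat.fib (i + 1) : ℤ) * Nat.fib (i + 1) - (Nat.fib i : ℤ) * Nat.fib (i + 2) = (-1) ^ i := by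
  induction i with
  | zero => simp
  | succ i ih =>
    have h : (Nat.fib (i + 1 + 2) : ℤ) = Nat.fib (i + 1) + Nat.fib (i + 2) := by
      rw [Nat.fib_add_two (n := i + 1)]; push_cast; ring
    have h3 : (Nat.fib (i + 2) : ℤ) = Nat.fib i + Nat.fib (i + 1) := by
      rw [Nat.fib_add_two]; push_cast; ring
    have h4 : i + 1 + 1 = i + 2 := by ring
    rw [h, h4, pow_succ, ← ih, h3]
    ring

lemma neg_one_pow_sq (i : ℕ) : ((-1 : ℤ) ^ i) * (-1) ^ i = 1 := by
  rw [← mul_pow]; simp

/-- The backward walk from two consecutive terms of a walk. -/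
lemma V_walk (a₁ a₂ : ℤ) (i : ℕ) :
    V (a₂ * Nat.fib (i + 1) + a₁ * Nat.fib i) (a₂ * Nat.fib (i + 2) + a₁ * Nat.fib (i + 1)) i
      = a₂ ∧
    V (a₂ * Nat.fib (i + 1) + a₁ * Nat.fib i) (a₂ * Nat.fib (i + 2) + a₁ * Nat.fib (i + 1)) (i + 1)
      = a₁ := by
  have hc := cassini i
  have hs := neg_one_pow_sq i
  constructor
  · rw [V_closed]
    calc (-1 : ℤ) ^ i * ((Nat.fib (i + 1) : ℤ) * (a₂ * Nat.fib (i + 1) + a₁ * Nat.fib i) -
          (Nat.fib i : ℤ) * (a₂ * Nat.fib (i + 2) + a₁ * Nat.fib (i + 1)))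
        = a₂ * ((-1 : ℤ) ^ i * ((Nat.fib (i + 1) : ℤ) * Nat.fib (i + 1)
            - (Nat.fib i : ℤ) * Nat.fib (i + 2))) := by ring
      _ = a₂ := by rw [hc, hs, mul_one]
  · rw [V_closed]
    have h4 : i + 1 + 1 = i + 2 := by ring
    rw [h4]
    calc (-1 : ℤ) ^ (i + 1) * ((Nat.fib (i + 2) : ℤ) * (a₂ * Nat.fib (i + 1) + a₁ * Nat.fib i) -
          (Nat.fib (i + 1) : ℤ) * (a₂ * Nat.fib (i + 2) + a₁ * Nat.fib (i + 1)))
        = a₁ * ((-1 : ℤ) ^ i * ((Nat.fib (i + 1) : ℤ) * Nat.fib (i + 1)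
            - (Nat.fib i : ℤ) * Nat.fib (i + 2))) := by ring
      _ = a₁ := by rw [hc, hs, mul_one]

/-- A slow walk from a witness. -/
lemma slow_of (n : ℕ) (W W' : ℤ) (p : ℕ) (hp : p < 2)
    (H1 : ∀ j : ℕ, j % 2 ≠ p → 0 < V n W j)
    (H1' : ∀ j : ℕ, j % 2 = p → 0 < V n W' j)
    (H2 : ∀ x : ℤ, (∀ j : ℕ, j % 2 = p → V n x j ≤ V n W j) ∨
      (∀ j : ℕ, j % 2 ≠ p → V n x j ≤ V n W' j))
    (i : ℕ) (hi : i % 2 = p) (h1 : 1 ≤ V n W i) (h2 : V n W' (i + 1) ≤ 0) :
    (∃ s a₁ a₂ : ℕ, IsSlow n s a₁ a₂ ∧ (walk a₁ a₂ (s + 1) : ℤ) = W) ∧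
    (∀ s a₁ a₂ : ℕ, IsSlow n s a₁ a₂ → (walk a₁ a₂ (s + 1) : ℤ) ≠ W') := by
  classical
  -- the indices where `V n W` is positive are bounded
  have hbd : ∀ j : ℕ, j % 2 = p → 1 ≤ V n W j → j ≤ n := by
    intro j hj hj1
    have h3 := H1 (j + 1) (by omega)
    have h4 := V_n n W j
    have h5 : (0 : ℤ) ≤ Nat.fib j := by positivity
    have h6 : (0 : ℤ) ≤ Nat.fib (j + 1) := by positivity
    have h7 : (Nat.fib (j + 1) : ℤ) ≤ n := by nlinarith
    have h8 : Nat.fib (j + 1) ≤ n := by exact_mod_cast h7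
    have h9 := Nat.le_fib_add_one (j + 1)
    omega
  -- `V n W'` stays nonpositive
  have hneg : ∀ l : ℕ, V n W' (i + 1 + 2 * l) ≤ 0 := by
    intro l
    induction l with
    | zero => simpa using h2
    | succ l ih =>
      have h3 : i + 1 + 2 * (l + 1) = (i + 1 + 2 * l) + 2 := by ring
      rw [h3, V_add_two]
      have := H1' (i + 1 + 2 * l + 1) (by omega)
      omega
  have hneg' : ∀ o : ℕ, o % 2 ≠ p → i + 1 ≤ o → V n W' o ≤ 0 := by
    intro o ho1 ho2
    have := hneg ((o - (i + 1)) / 2)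
    have h3 : i + 1 + 2 * ((o - (i + 1)) / 2) = o := by omega
    rwa [h3] at this
  set T := Nat.findGreatest (fun j => j % 2 = p ∧ 1 ≤ V n W j) n with hT
  have hiT : i ≤ T := Nat.le_findGreatest (hbd i hi h1) ⟨hi, h1⟩
  have hTs : T % 2 = p ∧ 1 ≤ V n W T :=
    Nat.findGreatest_spec (P := fun j => j % 2 = p ∧ 1 ≤ V n W j) (hbd i hi h1) ⟨hi, h1⟩
  have hTmax : ∀ j : ℕ, j % 2 = p → 1 ≤ V n W j → j ≤ T := fun j hj hj1 =>
    Nat.le_findGreatest (hbd j hj hj1) ⟨hj, hj1⟩
  have hT1 := H1 (T + 1) (by omega)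
  set a₂ := (V n W T).toNat with ha2
  set a₁ := (V n W (T + 1)).toNat with ha1
  have c2 : (a₂ : ℤ) = V n W T := by omega
  have c1 : (a₁ : ℤ) = V n W (T + 1) := by omega
  have hwn : walk a₁ a₂ (T + 2) = n := by
    rw [walk_eq]
    have := V_n n W T
    rw [← c1, ← c2] at this
    exact_mod_cast this
  have hwW : (walk a₁ a₂ (T + 2 + 1) : ℤ) = W := by
    have h3 : T + 2 + 1 = T + 1 + 2 := by ring
    rw [h3, walk_eq]
    have := V_w n W T
    rw [← c1, ← c2] at this
    push_cast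
    exact this
  -- a positive walk through `n`
  have hwalk : ∀ b₁ b₂ j : ℕ, walk b₁ b₂ (j + 2) = n →
      V n (walk b₁ b₂ (j + 2 + 1)) j = b₂ ∧ V n (walk b₁ b₂ (j + 2 + 1)) (j + 1) = b₁ := by
    intro b₁ b₂ j hj
    have h3 : j + 2 + 1 = j + 1 + 2 := by ring
    rw [h3]
    rw [walk_eq] at hj ⊢
    rw [← hj]
    push_cast
    exact V_walk b₁ b₂ j
  constructor
  · refine ⟨T + 2, a₁, a₂, ⟨by omega, by omega, by omega, hwn, ?_⟩, hwW⟩
    intro b₁ b₂ r hb1 hb2 hr hw
    by_contra hcon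
    obtain ⟨j, rfl⟩ : ∃ j, r = j + 2 := ⟨r - 2, by omega⟩
    obtain ⟨e1, e2⟩ := hwalk b₁ b₂ j hw
    rcases H2 (walk b₁ b₂ (j + 2 + 1)) with H | H
    · rcases Decidable.em (j % 2 = p) with hj | hj
      · have h3 := H j hj
        have := hTmax j hj (by omega)
        omega
      · have h3 := H (j + 1) (by omega)
        have := hTmax (j + 1) (by omega) (by omega)
        omega
    · rcases Decidable.em (j % 2 = p) with hj | hj
      · have h3 := H (j + 1) (by omega)
        have := hneg' (j + 1) (by omega) (by omega)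
        omega
      · have h3 := H j hj
        have := hneg' j hj (by omega)
        omega
  · rintro s b₁ b₂ ⟨hb1, hb2, hs, hw, hmax⟩ hW'
    have hsT := hmax a₁ a₂ (T + 2) (by omega) (by omega) (by omega) hwn
    obtain ⟨j, rfl⟩ : ∃ j, s = j + 2 := ⟨s - 2, by omega⟩
    obtain ⟨e1, e2⟩ := hwalk b₁ b₂ j hw
    rw [hW'] at e1 e2
    rcases Decidable.em (j % 2 = p) with hj | hj
    · have := hneg' (j + 1) (by omega) (by omega)
      omega
    · have := hneg' j hj (by omega)
      omega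

/-! ### The real form -/

open Real in
lemma phi_sq : goldenRatio * goldenRatio = goldenRatio + 1 := by
  have := Real.goldenRatio_sq
  rw [sq] at this
  exact this

lemma phi_lo : (1.61803 : ℝ) < Real.goldenRatio := by
  unfold Real.goldenRatio
  have h : (2.23606 : ℝ) < Real.sqrt 5 := by
    apply Real.lt_sqrt_of_sq_lt
    norm_num
  linarith

lemma phi_hi : Real.goldenRatio < (1.61804 : ℝ) := by
  unfold Real.goldenRatio
  have h : Real.sqrt 5 < (2.23608 : ℝ) := by
    rw [Real.sqrt_lt' (by norm_num)]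
    norm_num
  linarith

/-- `θ = φ - 1 = 1/φ`. -/
noncomputable def th : ℝ := Real.goldenRatio - 1

lemma th_sq : th * th = 1 - th := by
  unfold th
  have := phi_sq
  linarith [phi_sq, show (Real.goldenRatio - 1) * (Real.goldenRatio - 1) =
    Real.goldenRatio * Real.goldenRatio - 2 * Real.goldenRatio + 1 by ring]

lemma th_pos : 0 < th := by
  unfold th
  linarith [phi_lo]

lemma th_phi : th * Real.goldenRatio = 1 := by
  unfold th
  linarith [phi_sq, show (Real.goldenRatio - 1) * Real.goldenRatio =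
    Real.goldenRatio * Real.goldenRatio - Real.goldenRatio by ring]

lemma V_real (n w : ℤ) : ∀ j : ℕ,
    (V n w j : ℝ) = th ^ j * n + (-1) ^ j * Nat.fib j * (Real.goldenRatio * n - w)
  | 0 => by simp [V]
  | 1 => by simp [V, th]; ring
  | (j + 2) => by
    rw [V_add_two]
    push_cast
    rw [V_real n w j, V_real n w (j + 1)]
    have h3 : (Nat.fib (j + 2) : ℝ) = Nat.fib j + Nat.fib (j + 1) := by
      rw [Nat.fib_add_two]; push_cast; ring
    have h4 : th ^ (j + 2) = th ^ j - th ^ (j + 1) := by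
      calc th ^ (j + 2) = th ^ j * (th * th) := by ring
        _ = th ^ j * (1 - th) := by rw [th_sq]
        _ = th ^ j - th ^ (j + 1) := by ring
    rw [h3, h4]
    ring

lemma floor_lt (n : ℕ) (hn : 1 ≤ n) : (⌊Real.goldenRatio * (n : ℝ)⌋ : ℝ) < Real.goldenRatio * n := by
  apply lt_of_le_of_ne (Int.floor_le _)
  intro h
  have hirr : Irrational (Real.goldenRatio * (n : ℝ)) :=
    Real.goldenRatio_irrational.mul_natCast (by omega)
  exact hirr ⟨⌊Real.goldenRatio * (n : ℝ)⌋, by rw [← h]; simp⟩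

lemma ceil_eq (n : ℕ) (hn : 1 ≤ n) :
    ⌈Real.goldenRatio * (n : ℝ)⌉ = ⌊Real.goldenRatio * (n : ℝ)⌋ + 1 := by
  rw [Int.ceil_eq_iff]
  push_cast
  constructor
  · have := floor_lt n hn
    linarith
  · exact (Int.lt_floor_add_one _).le

lemma even_pow {j : ℕ} (h : j % 2 = 0) : ((-1 : ℝ)) ^ j = 1 := by
  have : Even j := Nat.even_iff.2 h
  exact this.neg_one_pow

lemma odd_pow {j : ℕ} (h : j % 2 = 1) : ((-1 : ℝ)) ^ j = -1 := by
  have : Odd j := Nat.odd_iff.2 h
  exact this.neg_one_pow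

lemma V_even {n w : ℤ} {j : ℕ} (h : j % 2 = 0) :
    (V n w j : ℝ) = th ^ j * n + Nat.fib j * (Real.goldenRatio * n - w) := by
  rw [V_real, even_pow h]; ring

lemma V_odd {n w : ℤ} {j : ℕ} (h : j % 2 = 1) :
    (V n w j : ℝ) = th ^ j * n - Nat.fib j * (Real.goldenRatio * n - w) := by
  rw [V_real, odd_pow h]; ring

lemma fib_nonneg (j : ℕ) : (0 : ℝ) ≤ Nat.fib j := by positivity

lemma V_even_pos (n : ℕ) (hn : 1 ≤ n) (j : ℕ) (h : j % 2 = 0) :
    0 < V n ⌊Real.goldenRatio * (n : ℝ)⌋ j := by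
  have h1 : (0 : ℝ) < (V n ⌊Real.goldenRatio * (n : ℝ)⌋ j : ℝ) := by
    rw [V_even h]
    have h2 := floor_lt n hn
    have h3 : 0 < th ^ j * (n : ℝ) := by
      have := th_pos
      have : (0 : ℝ) < n := by exact_mod_cast hn
      positivity
    have h4 := fib_nonneg j
    push_cast
    nlinarith
  exact_mod_cast h1

lemma V_odd_pos (n : ℕ) (hn : 1 ≤ n) (j : ℕ) (h : j % 2 = 1) :
    0 < V n (⌊Real.goldenRatio * (n : ℝ)⌋ + 1) j := by
  have h1 : (0 : ℝ) < (V n (⌊Real.goldenRatio * (n : ℝ)⌋ + 1) j : ℝ) := by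
    rw [V_odd h]
    have h2 := Int.lt_floor_add_one (Real.goldenRatio * (n : ℝ))
    have h3 : 0 < th ^ j * (n : ℝ) := by
      have := th_pos
      have : (0 : ℝ) < n := by exact_mod_cast hn
      positivity
    have h4 := fib_nonneg j
    push_cast
    nlinarith
  exact_mod_cast h1

lemma V_even_anti (n : ℤ) {w w' : ℤ} (hw : w ≤ w') (j : ℕ) (h : j % 2 = 0) :
    V n w' j ≤ V n w j := by
  have h1 : (V n w' j : ℝ) ≤ (V n w j : ℝ) := by
    rw [V_even h, V_even h]
    have h4 := fib_nonneg j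
    have h5 : (w : ℝ) ≤ w' := by exact_mod_cast hw
    nlinarith
  exact_mod_cast h1

lemma V_odd_mono (n : ℤ) {w w' : ℤ} (hw : w ≤ w') (j : ℕ) (h : j % 2 = 1) :
    V n w j ≤ V n w' j := by
  have h1 : (V n w j : ℝ) ≤ (V n w' j : ℝ) := by
    rw [V_odd h, V_odd h]
    have h4 := fib_nonneg j
    have h5 : (w : ℝ) ≤ w' := by exact_mod_cast hw
    nlinarith
  exact_mod_cast h1

/-- A witness for a down-integer. -/
lemma D_of (n : ℕ) (hn : 2 ≤ n) (i : ℕ) (hi : i % 2 = 1)
    (h1 : 1 ≤ V n ⌊Real.goldenRatio * (n : ℝ)⌋ i)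
    (h2 : V n (⌊Real.goldenRatio * (n : ℝ)⌋ + 1) (i + 1) ≤ 0) : n ∈ D ∧ n ∉ U := by
  obtain ⟨hA, hB⟩ := slow_of n ⌊Real.goldenRatio * (n : ℝ)⌋ (⌊Real.goldenRatio * (n : ℝ)⌋ + 1) 1
    (by norm_num) (fun j hj => V_even_pos n (by omega) j (by omega))
    (fun j hj => V_odd_pos n (by omega) j hj)
    (fun x => by
      rcases le_or_gt x ⌊Real.goldenRatio * (n : ℝ)⌋ with hx | hx
      · exact Or.inl fun j hj => V_odd_mono _ hx j hj
      · exact Or.inr fun j hj => V_even_anti _ (by omega) j (by omega))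
    i hi h1 h2
  refine ⟨⟨hn, hA⟩, ?_⟩
  rintro ⟨-, s, a₁, a₂, hs, hw⟩
  rw [ceil_eq n (by omega)] at hw
  exact hB s a₁ a₂ hs hw

/-- A witness for an up-integer. -/
lemma U_of (n : ℕ) (hn : 2 ≤ n) (i : ℕ) (hi : i % 2 = 0)
    (h1 : 1 ≤ V n (⌊Real.goldenRatio * (n : ℝ)⌋ + 1) i)
    (h2 : V n ⌊Real.goldenRatio * (n : ℝ)⌋ (i + 1) ≤ 0) : n ∈ U ∧ n ∉ D := by
  obtain ⟨hA, hB⟩ := slow_of n (⌊Real.goldenRatio * (n : ℝ)⌋ + 1) ⌊Real.goldenRatio * (n : ℝ)⌋ 0
    (by norm_num) (fun j hj => V_odd_pos n (by omega) j (by omega))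
    (fun j hj => V_even_pos n (by omega) j hj)
    (fun x => by
      rcases le_or_gt x ⌊Real.goldenRatio * (n : ℝ)⌋ with hx | hx
      · exact Or.inr fun j hj => V_odd_mono _ hx j (by omega)
      · exact Or.inl fun j hj => V_even_anti _ (by omega) j (by omega))
    i hi h1 h2
  constructor
  · refine ⟨hn, ?_⟩
    rw [ceil_eq n (by omega)]
    exact hA
  · rintro ⟨-, s, a₁, a₂, hs, hw⟩
    exact hB s a₁ a₂ hs hw

lemma D_of_real (n : ℕ) (hn : 2 ≤ n) (i : ℕ) (hi : i % 2 = 1)
    (h1 : Nat.fib i * (Real.goldenRatio * n - ⌊Real.goldenRatio * (n : ℝ)⌋) < th ^ i * n)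
    (h2 : th ^ (i + 1) * n ≤
      Nat.fib (i + 1) * (1 - (Real.goldenRatio * n - ⌊Real.goldenRatio * (n : ℝ)⌋))) :
    n ∈ D ∧ n ∉ U := by
  apply D_of n hn i hi
  · have h3 : (0 : ℝ) < (V n ⌊Real.goldenRatio * (n : ℝ)⌋ i : ℝ) := by
      rw [V_odd hi]
      push_cast
      linarith
    have h4 : 0 < V n ⌊Real.goldenRatio * (n : ℝ)⌋ i := by exact_mod_cast h3
    omega
  · have h3 : (V n (⌊Real.goldenRatio * (n : ℝ)⌋ + 1) (i + 1) : ℝ) ≤ 0 := by
      rw [V_even (by omega)]
      push_cast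
      linarith
    exact_mod_cast h3

lemma U_of_real (n : ℕ) (hn : 2 ≤ n) (i : ℕ) (hi : i % 2 = 0)
    (h1 : Nat.fib i * (1 - (Real.goldenRatio * n - ⌊Real.goldenRatio * (n : ℝ)⌋)) < th ^ i * n)
    (h2 : th ^ (i + 1) * n ≤
      Nat.fib (i + 1) * (Real.goldenRatio * n - ⌊Real.goldenRatio * (n : ℝ)⌋)) :
    n ∈ U ∧ n ∉ D := by
  apply U_of n hn i hi
  · have h3 : (0 : ℝ) < (V n (⌊Real.goldenRatio * (n : ℝ)⌋ + 1) i : ℝ) := by
      rw [V_even hi]
      push_cast
      linarith
    have h4 : 0 < V n (⌊Real.goldenRatio * (n : ℝ)⌋ + 1) i := by exact_mod_cast h3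
    omega
  · have h3 : (V n ⌊Real.goldenRatio * (n : ℝ)⌋ (i + 1) : ℝ) ≤ 0 := by
      rw [V_odd (by omega)]
      push_cast
      linarith
    exact_mod_cast h3

/-! ### The thresholds -/

/-- The block of `n`: `F_k F_{k+1} ≤ n ≤ F_{k+1} F_{k+2}`. -/
lemma exists_block (n : ℕ) (hn : 715 ≤ n) :
    ∃ k : ℕ, 8 ≤ k ∧ Nat.fib k * Nat.fib (k + 1) ≤ n ∧ n ≤ Nat.fib (k + 1) * Nat.fib (k + 2) := by
  have hex : ∃ k : ℕ, n ≤ Nat.fib (k + 1) * Nat.fib (k + 2) := by
    refine ⟨n, ?_⟩
    have h1 := Nat.le_fib_add_one (n + 1)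
    have h2 : 1 ≤ Nat.fib (n + 2) := Nat.fib_pos.2 (by omega)
    nlinarith
  classical
  have h8 : 8 ≤ Nat.find hex := by
    by_contra hcon
    have h1 := Nat.find_spec hex
    have h3 : Nat.fib (Nat.find hex + 1) ≤ Nat.fib 8 := Nat.fib_mono (by omega)
    have h4 : Nat.fib (Nat.find hex + 2) ≤ Nat.fib 9 := Nat.fib_mono (by omega)
    have h5 : Nat.fib 8 = 21 := by decide
    have h6 : Nat.fib 9 = 34 := by decide
    rw [h5] at h3
    rw [h6] at h4
    have h7 : n ≤ 21 * 34 := h1.trans (Nat.mul_le_mul h3 h4)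
    omega
  refine ⟨Nat.find hex, h8, ?_, Nat.find_spec hex⟩
  have h9 := Nat.find_min hex (m := Nat.find hex - 1) (by omega)
  have e1 : Nat.find hex - 1 + 1 = Nat.find hex := by omega
  have e2 : Nat.find hex - 1 + 2 = Nat.find hex + 1 := by omega
  rw [e1, e2] at h9
  omega

lemma fib_ratio (k : ℕ) : 55 * Nat.fib (k + 8) ≤ 34 * Nat.fib (k + 9) ∧
    21 * Nat.fib (k + 9) ≤ 34 * Nat.fib (k + 8) ∧ 21 ≤ Nat.fib (k + 8) ∧ 34 ≤ Nat.fib (k + 9) := by
  induction k with
  | zero => decide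
  | succ k ih =>
    have h : Nat.fib (k + 1 + 9) = Nat.fib (k + 8) + Nat.fib (k + 9) := by
      have : k + 1 + 9 = k + 8 + 2 := by ring
      rw [this, Nat.fib_add_two]
    have h2 : k + 1 + 8 = k + 9 := by ring
    rw [h, h2]
    omega

/-- The inequalities behind the thresholds. -/
lemma numeric (a b T n m z : ℝ) (ha : 21 ≤ a) (hb : 34 ≤ b) (hT : 0 < T)
    (hid : T * (Real.goldenRatio * b + a) = 1) (hn1 : a * b ≤ n) (hn2 : n ≤ b * (a + b))
    (hm1 : n ≤ m) (hm2 : m ≤ n + 13) :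
    (z < 1 - n * T / b - 0.02 → a * z < Real.goldenRatio * T * m ∧ T * m ≤ b * (1 - z)) ∧
    (1 - n * T / b + 0.02 < z → b * (1 - z) < T * m ∧ th * T * m ≤ (a + b) * z) := by
  have p1 := phi_lo
  have p2 := phi_hi
  have hb0 : 0 < b := by linarith
  set M := n * T / b with hM
  have hMb : b * M = n * T := by rw [hM]; field_simp
  have hT76 : T * 76 ≤ 1 := by
    have : T * 76 ≤ T * (Real.goldenRatio * b + a) := by
      apply mul_le_mul_of_nonneg_left _ hT.le
      nlinarith
    linarith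
  have hTm1 : T * n ≤ T * m := mul_le_mul_of_nonneg_left hm1 hT.le
  have hTm2 : T * m ≤ T * (n + 13) := mul_le_mul_of_nonneg_left hm2 hT.le
  have hT13 : T * 13 ≤ 0.02 * b := by linarith
  constructor
  · intro hz
    constructor
    · have h1 : a * z < a * (1 - M - 0.02) := mul_lt_mul_of_pos_left hz (by linarith)
      -- `a ≤ φ T n + a M`
      have h2 : b * a ≤ b * (Real.goldenRatio * T * n + a * M) := by
        have : b * (Real.goldenRatio * T * n + a * M) = n * (T * (Real.goldenRatio * b + a)) := by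
          calc b * (Real.goldenRatio * T * n + a * M)
              = Real.goldenRatio * T * n * b + a * (b * M) := by ring
            _ = Real.goldenRatio * T * n * b + a * (n * T) := by rw [hMb]
            _ = n * (T * (Real.goldenRatio * b + a)) := by ring
        rw [this, hid]
        linarith
      have h3 : a ≤ Real.goldenRatio * T * n + a * M := le_of_mul_le_mul_left h2 hb0
      have h4 : Real.goldenRatio * (T * n) ≤ Real.goldenRatio * (T * m) :=
        mul_le_mul_of_nonneg_left hTm1 (by linarith)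
      nlinarith
    · have h1 : b * (M + 0.02) ≤ b * (1 - z) := by
        apply mul_le_mul_of_nonneg_left _ hb0.le
        linarith
      linarith
  · intro hz
    constructor
    · have h1 : b * (1 - z) < b * (M - 0.02) := by
        apply mul_lt_mul_of_pos_left _ hb0
        linarith
      linarith
    · have hc : 0 < a + b := by linarith
      have h1 : (a + b) * (1 - M + 0.02) ≤ (a + b) * z := by
        apply mul_le_mul_of_nonneg_left _ hc.le
        linarith
      have h2 : b * (th * T * n + (a + b) * M) ≤ b * (a + b) := by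
        have : b * (th * T * n + (a + b) * M) = n * (T * (Real.goldenRatio * b + a)) := by
          calc b * (th * T * n + (a + b) * M)
              = th * T * n * b + (a + b) * (b * M) := by ring
            _ = th * T * n * b + (a + b) * (n * T) := by rw [hMb]
            _ = n * (T * (Real.goldenRatio * b + a)) := by unfold th; ring
        rw [this, hid]
        linarith
      have h3 : th * T * n + (a + b) * M ≤ a + b := le_of_mul_le_mul_left h2 hb0
      have hth1 : th < 1 := by unfold th; linarith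
      have h4 : th * (T * m) ≤ th * (T * (n + 13)) := mul_le_mul_of_nonneg_left hTm2 th_pos.le
      have h5 : th * (T * 13) ≤ 1 * (T * 13) := mul_le_mul_of_nonneg_right hth1.le (by positivity)
      nlinarith

/-- The fractional part `φ m - ⌊φ m⌋`. -/
noncomputable def fr (m : ℕ) : ℝ := Real.goldenRatio * m - ⌊Real.goldenRatio * (m : ℝ)⌋

lemma threshold (n : ℕ) (hn : 715 ≤ n) : ∃ r : ℝ, 0.27 ≤ r ∧ r ≤ 0.73 ∧
    ∀ m : ℕ, n ≤ m → m ≤ n + 13 →
      (fr m < r - 0.02 → m ∈ D ∧ m ∉ U) ∧ (r + 0.02 < fr m → m ∈ U ∧ m ∉ D) := by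
  obtain ⟨k, hk8, hk1, hk2⟩ := exists_block n hn
  obtain ⟨j, rfl⟩ : ∃ j, k = j + 8 := ⟨k - 8, by omega⟩
  obtain ⟨r1, r2, r3, r4⟩ := fib_ratio j
  have e1 : j + 8 + 1 = j + 9 := by ring
  have e2 : j + 8 + 2 = j + 10 := by ring
  rw [e1] at hk1 hk2
  rw [e2] at hk2
  have hfib : Nat.fib (j + 10) = Nat.fib (j + 8) + Nat.fib (j + 9) := by
    have : j + 10 = j + 8 + 2 := by ring
    rw [this, Nat.fib_add_two]
  rw [hfib] at hk2
  set a : ℝ := (Nat.fib (j + 8) : ℝ) with ha
  set b : ℝ := (Nat.fib (j + 9) : ℝ) with hb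
  set T : ℝ := th ^ (j + 9) with hT
  have ha21 : (21 : ℝ) ≤ a := by rw [ha]; exact_mod_cast r3
  have hb34 : (34 : ℝ) ≤ b := by rw [hb]; exact_mod_cast r4
  have hr1 : 55 * a ≤ 34 * b := by rw [ha, hb]; exact_mod_cast r1
  have hr2 : 21 * b ≤ 34 * a := by rw [ha, hb]; exact_mod_cast r2
  have hTpos : 0 < T := by rw [hT]; exact pow_pos th_pos _
  have hid : T * (Real.goldenRatio * b + a) = 1 := by
    have h := Real.goldenRatio_mul_fib_succ_add_fib (j + 8)
    rw [e1] at h
    rw [ha, hb, h, hT, ← mul_pow, th_phi, one_pow]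
  have hn1 : a * b ≤ (n : ℝ) := by rw [ha, hb]; exact_mod_cast hk1
  have hn2 : (n : ℝ) ≤ b * (a + b) := by rw [ha, hb]; exact_mod_cast hk2
  have hS : th ^ (j + 8) = Real.goldenRatio * T := by
    rw [hT, pow_succ th (j + 8)]
    calc th ^ (j + 8) = th ^ (j + 8) * 1 := by ring
      _ = th ^ (j + 8) * (th * Real.goldenRatio) := by rw [th_phi]
      _ = Real.goldenRatio * (th ^ (j + 8) * th) := by ring
  have hR : th ^ (j + 10) = th * T := by
    rw [hT, show j + 10 = j + 9 + 1 by ring, pow_succ th (j + 9)]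
    ring
  have hb0 : 0 < b := by linarith
  have p1 := phi_lo
  have p2 := phi_hi
  set M : ℝ := (n : ℝ) * T / b with hM
  have hMb : M * b = n * T := by rw [hM]; field_simp
  -- `0.27 ≤ M ≤ 0.73`
  have hM1 : 0.27 ≤ M := by
    have h1 : a * T ≤ M := by
      rw [hM, le_div_iff₀ hb0]
      nlinarith
    have h2 : 0.27 * (Real.goldenRatio * b + a) ≤ a := by nlinarith
    have h3 : T * (0.27 * (Real.goldenRatio * b + a)) ≤ T * a :=
      mul_le_mul_of_nonneg_left h2 hTpos.le
    nlinarith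
  have hM2 : M ≤ 0.73 := by
    have h1 : M ≤ (a + b) * T := by
      rw [hM, div_le_iff₀ hb0]
      nlinarith
    have h2 : a + b ≤ 0.73 * (Real.goldenRatio * b + a) := by nlinarith
    have h3 : T * (a + b) ≤ T * (0.73 * (Real.goldenRatio * b + a)) :=
      mul_le_mul_of_nonneg_left h2 hTpos.le
    nlinarith
  have hnum : ∀ m : ℕ, n ≤ m → m ≤ n + 13 → ∀ z : ℝ,
      (z < 1 - M - 0.02 → a * z < th ^ (j + 8) * m ∧ T * m ≤ b * (1 - z)) ∧
      (1 - M + 0.02 < z → b * (1 - z) < T * m ∧ th ^ (j + 10) * m ≤ (a + b) * z) := by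
    intro m h1 h2 z
    have := numeric a b T n m z ha21 hb34 hTpos hid hn1 hn2 (by exact_mod_cast h1)
      (by exact_mod_cast h2)
    rw [hS, hR]
    exact this
  have hc : (Nat.fib (j + 10) : ℝ) = a + b := by rw [hfib, ha, hb]; push_cast; ring
  rcases Nat.mod_two_eq_zero_or_one j with hj | hj
  · -- `j + 8` even: `z = 1 - x`
    refine ⟨M, hM1, hM2, fun m hm1 hm2 => ?_⟩
    obtain ⟨l1, l2⟩ := hnum m hm1 hm2 (1 - fr m)
    constructor
    · intro h
      obtain ⟨q1, q2⟩ := l2 (by linarith)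
      apply D_of_real m (by omega) (j + 9) (by omega)
      · rw [← hb]
        unfold fr at q1
        linarith
      · rw [show j + 9 + 1 = j + 10 by ring, hc]
        unfold fr at q2
        linarith
    · intro h
      obtain ⟨q1, q2⟩ := l1 (by linarith)
      apply U_of_real m (by omega) (j + 8) (by omega)
      · rw [← ha]
        unfold fr at q1
        linarith
      · rw [show j + 8 + 1 = j + 9 by ring, ← hb, ← hT]
        unfold fr at q2
        linarith
  · refine ⟨1 - M, by linarith, by linarith, fun m hm1 hm2 => ?_⟩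
    obtain ⟨l1, l2⟩ := hnum m hm1 hm2 (fr m)
    constructor
    · intro h
      obtain ⟨q1, q2⟩ := l1 (by linarith)
      apply D_of_real m (by omega) (j + 8) (by omega)
      · rw [← ha]
        unfold fr at q1
        linarith
      · rw [show j + 8 + 1 = j + 9 by ring, ← hb, ← hT]
        unfold fr at q2
        linarith
    · intro h
      obtain ⟨q1, q2⟩ := l2 (by linarith)
      apply U_of_real m (by omega) (j + 9) (by omega)
      · rw [← hb]
        unfold fr at q1
        linarith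
      · rw [show j + 9 + 1 = j + 10 by ring, hc]
        unfold fr at q2
        linarith

/-! ### The rotation -/

/-- Three elements of `q` strictly between `0` and `g`. -/
def Three (q : ℕ → Prop) (g : ℕ) : Prop :=
  ∃ i j k : ℕ, 0 < i ∧ i < j ∧ j < k ∧ k < g ∧ q i ∧ q j ∧ q k

lemma rot_D (q : ℕ → Prop) (X r : ℝ) (hX0 : 0 ≤ X) (hX1 : X < 1) (hr1 : 0.27 ≤ r)
    (hr2 : r ≤ 0.73)
    (hq : ∀ j : ℕ, j ≤ 13 → ∀ c : ℤ, 0 ≤ X + Real.goldenRatio * j - c →
      X + Real.goldenRatio * j - c < 1 →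
      (X + Real.goldenRatio * j - c < r - 0.02 → q j) ∧
      (r + 0.02 < X + Real.goldenRatio * j - c → ¬ q j))
    (h0 : q 0) : Three q 14 ∧ (q 9 → Three q 9) ∧ (q 12 → Three q 12) := by
  have p1 := phi_lo
  have p2 := phi_hi
  have hX : X ≤ r + 0.02 := by
    by_contra hcon
    exact (hq 0 (by norm_num) 0 (by push_cast; linarith) (by push_cast; linarith)).2
      (by push_cast; linarith) h0
  have k1 : 2 ≤ X + Real.goldenRatio → q 1 ∧ q 3 ∧ q 6 := by
    intro h
    refine ⟨(hq 1 (by norm_num) 2 ?_ ?_).1 ?_, (hq 3 (by norm_num) 5 ?_ ?_).1 ?_,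
      (hq 6 (by norm_num) 10 ?_ ?_).1 ?_⟩ <;> (push_cast; linarith)
  refine ⟨?_, ?_, ?_⟩
  · rcases lt_or_ge (X + Real.goldenRatio) 2 with h1 | h1
    · rcases lt_or_ge (X + Real.goldenRatio * 3) 5 with h3 | h3
      · -- `X < 0.146`
        have q5 : q 5 := (hq 5 (by norm_num) 8 (by push_cast; linarith)
          (by push_cast; linarith)).1 (by push_cast; linarith)
        have q13 : q 13 := (hq 13 (by norm_num) 21 (by push_cast; linarith)
          (by push_cast; linarith)).1 (by push_cast; linarith)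
        rcases lt_or_ge (X + Real.goldenRatio * 8) 13 with h8 | h8
        · have q10 : q 10 := (hq 10 (by norm_num) 16 (by push_cast; linarith)
            (by push_cast; linarith)).1 (by push_cast; linarith)
          exact ⟨5, 10, 13, by norm_num, by norm_num, by norm_num, by norm_num, q5, q10, q13⟩
        · have q8 : q 8 := (hq 8 (by norm_num) 13 (by push_cast; linarith)
            (by push_cast; linarith)).1 (by push_cast; linarith)
          exact ⟨5, 8, 13, by norm_num, by norm_num, by norm_num, by norm_num, q5, q8, q13⟩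
      · have q3 : q 3 := (hq 3 (by norm_num) 5 (by push_cast; linarith)
          (by push_cast; linarith)).1 (by push_cast; linarith)
        have q8 : q 8 := (hq 8 (by norm_num) 13 (by push_cast; linarith)
          (by push_cast; linarith)).1 (by push_cast; linarith)
        rcases lt_or_ge (X + Real.goldenRatio * 11) 18 with h11 | h11
        · have q13 : q 13 := (hq 13 (by norm_num) 21 (by push_cast; linarith)
            (by push_cast; linarith)).1 (by push_cast; linarith)
          exact ⟨3, 8, 13, by norm_num, by norm_num, by norm_num, by norm_num, q3, q8, q13⟩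
        · have q11 : q 11 := (hq 11 (by norm_num) 18 (by push_cast; linarith)
            (by push_cast; linarith)).1 (by push_cast; linarith)
          exact ⟨3, 8, 11, by norm_num, by norm_num, by norm_num, by norm_num, q3, q8, q11⟩
    · obtain ⟨q1, q3, q6⟩ := k1 h1
      exact ⟨1, 3, 6, by norm_num, by norm_num, by norm_num, by norm_num, q1, q3, q6⟩
  · intro q9
    rcases lt_or_ge (X + Real.goldenRatio * 9) 15 with h9 | h9
    · have hy : X + Real.goldenRatio * 9 - 14 ≤ r + 0.02 := by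
        by_contra hcon
        exact (hq 9 (by norm_num) 14 (by push_cast; linarith) (by push_cast; linarith)).2
          (by push_cast; linarith) q9
      have q2 : q 2 := (hq 2 (by norm_num) 3 (by push_cast; linarith)
        (by push_cast; linarith)).1 (by push_cast; linarith)
      have q5 : q 5 := (hq 5 (by norm_num) 8 (by push_cast; linarith)
        (by push_cast; linarith)).1 (by push_cast; linarith)
      have q7 : q 7 := (hq 7 (by norm_num) 11 (by push_cast; linarith)
        (by push_cast; linarith)).1 (by push_cast; linarith)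
      exact ⟨2, 5, 7, by norm_num, by norm_num, by norm_num, by norm_num, q2, q5, q7⟩
    · obtain ⟨q1, q3, q6⟩ := k1 (by linarith)
      exact ⟨1, 3, 6, by norm_num, by norm_num, by norm_num, by norm_num, q1, q3, q6⟩
  · intro q12
    rcases lt_or_ge (X + Real.goldenRatio * 12) 20 with h12 | h12
    · have hy : X + Real.goldenRatio * 12 - 19 ≤ r + 0.02 := by
        by_contra hcon
        exact (hq 12 (by norm_num) 19 (by push_cast; linarith) (by push_cast; linarith)).2
          (by push_cast; linarith) q12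
      have q2 : q 2 := (hq 2 (by norm_num) 3 (by push_cast; linarith)
        (by push_cast; linarith)).1 (by push_cast; linarith)
      have q5 : q 5 := (hq 5 (by norm_num) 8 (by push_cast; linarith)
        (by push_cast; linarith)).1 (by push_cast; linarith)
      have q7 : q 7 := (hq 7 (by norm_num) 11 (by push_cast; linarith)
        (by push_cast; linarith)).1 (by push_cast; linarith)
      exact ⟨2, 5, 7, by norm_num, by norm_num, by norm_num, by norm_num, q2, q5, q7⟩
    · obtain ⟨q1, q3, q6⟩ := k1 (by linarith)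
      exact ⟨1, 3, 6, by norm_num, by norm_num, by norm_num, by norm_num, q1, q3, q6⟩

lemma rot_U (q : ℕ → Prop) (X r : ℝ) (hX0 : 0 < X) (hX1 : X < 1) (hr1 : 0.27 ≤ r)
    (hr2 : r ≤ 0.73)
    (hq : ∀ j : ℕ, j ≤ 13 → ∀ c : ℤ, 0 ≤ X + Real.goldenRatio * j - c →
      X + Real.goldenRatio * j - c < 1 →
      (r + 0.02 < X + Real.goldenRatio * j - c → q j) ∧
      (X + Real.goldenRatio * j - c < r - 0.02 → ¬ q j))
    (h0 : q 0) : Three q 14 ∧ (q 9 → Three q 9) ∧ (q 12 → Three q 12) := by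
  have p1 := phi_lo
  have p2 := phi_hi
  have hX : r - 0.02 ≤ X := by
    by_contra hcon
    exact (hq 0 (by norm_num) 0 (by push_cast; linarith) (by push_cast; linarith)).2
      (by push_cast; linarith) h0
  have k1 : X + Real.goldenRatio * 7 < 12 → q 2 ∧ q 5 ∧ q 7 := by
    intro h
    refine ⟨(hq 2 (by norm_num) 3 ?_ ?_).1 ?_, (hq 5 (by norm_num) 8 ?_ ?_).1 ?_,
      (hq 7 (by norm_num) 11 ?_ ?_).1 ?_⟩ <;> (push_cast; linarith)
  refine ⟨?_, ?_, ?_⟩
  · rcases lt_or_ge (X + Real.goldenRatio * 7) 12 with h7 | h7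
    · obtain ⟨q2, q5, q7⟩ := k1 h7
      exact ⟨2, 5, 7, by norm_num, by norm_num, by norm_num, by norm_num, q2, q5, q7⟩
    · rcases lt_or_ge (X + Real.goldenRatio * 2) 4 with h2 | h2
      · -- `0.674 ≤ X < 0.764`
        have q2 : q 2 := (hq 2 (by norm_num) 3 (by push_cast; linarith)
          (by push_cast; linarith)).1 (by push_cast; linarith)
        have q5 : q 5 := (hq 5 (by norm_num) 8 (by push_cast; linarith)
          (by push_cast; linarith)).1 (by push_cast; linarith)
        have q10 : q 10 := (hq 10 (by norm_num) 16 (by push_cast; linarith)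
          (by push_cast; linarith)).1 (by push_cast; linarith)
        exact ⟨2, 5, 10, by norm_num, by norm_num, by norm_num, by norm_num, q2, q5, q10⟩
      · rcases lt_or_ge (X + Real.goldenRatio * 10) 17 with h10 | h10
        · -- `0.764 ≤ X < 0.8197`
          have q5 : q 5 := (hq 5 (by norm_num) 8 (by push_cast; linarith)
            (by push_cast; linarith)).1 (by push_cast; linarith)
          have q10 : q 10 := (hq 10 (by norm_num) 16 (by push_cast; linarith)
            (by push_cast; linarith)).1 (by push_cast; linarith)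
          have q13 : q 13 := (hq 13 (by norm_num) 21 (by push_cast; linarith)
            (by push_cast; linarith)).1 (by push_cast; linarith)
          exact ⟨5, 10, 13, by norm_num, by norm_num, by norm_num, by norm_num, q5, q10, q13⟩
        · have q8 : q 8 := (hq 8 (by norm_num) 13 (by push_cast; linarith)
            (by push_cast; linarith)).1 (by push_cast; linarith)
          rcases lt_or_ge (X + Real.goldenRatio * 5) 9 with h5 | h5
          · have q5 : q 5 := (hq 5 (by norm_num) 8 (by push_cast; linarith)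
              (by push_cast; linarith)).1 (by push_cast; linarith)
            have q13 : q 13 := (hq 13 (by norm_num) 21 (by push_cast; linarith)
              (by push_cast; linarith)).1 (by push_cast; linarith)
            exact ⟨5, 8, 13, by norm_num, by norm_num, by norm_num, by norm_num, q5, q8, q13⟩
          · have q3 : q 3 := (hq 3 (by norm_num) 5 (by push_cast; linarith)
              (by push_cast; linarith)).1 (by push_cast; linarith)
            rcases lt_or_ge (X + Real.goldenRatio * 13) 22 with h13 | h13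
            · have q13 : q 13 := (hq 13 (by norm_num) 21 (by push_cast; linarith)
                (by push_cast; linarith)).1 (by push_cast; linarith)
              exact ⟨3, 8, 13, by norm_num, by norm_num, by norm_num, by norm_num, q3, q8, q13⟩
            · have q11 : q 11 := (hq 11 (by norm_num) 18 (by push_cast; linarith)
                (by push_cast; linarith)).1 (by push_cast; linarith)
              exact ⟨3, 8, 11, by norm_num, by norm_num, by norm_num, by norm_num, q3, q8, q11⟩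
  · intro q9
    rcases lt_or_ge (X + Real.goldenRatio * 9) 15 with h9 | h9
    · obtain ⟨q2, q5, q7⟩ := k1 (by linarith)
      exact ⟨2, 5, 7, by norm_num, by norm_num, by norm_num, by norm_num, q2, q5, q7⟩
    · have hy : r - 0.02 ≤ X + Real.goldenRatio * 9 - 15 := by
        by_contra hcon
        exact (hq 9 (by norm_num) 15 (by push_cast; linarith) (by push_cast; linarith)).2
          (by push_cast; linarith) q9
      have q1 : q 1 := (hq 1 (by norm_num) 2 (by push_cast; linarith)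
        (by push_cast; linarith)).1 (by push_cast; linarith)
      have q3 : q 3 := (hq 3 (by norm_num) 5 (by push_cast; linarith)
        (by push_cast; linarith)).1 (by push_cast; linarith)
      have q6 : q 6 := (hq 6 (by norm_num) 10 (by push_cast; linarith)
        (by push_cast; linarith)).1 (by push_cast; linarith)
      exact ⟨1, 3, 6, by norm_num, by norm_num, by norm_num, by norm_num, q1, q3, q6⟩
  · intro q12
    rcases lt_or_ge (X + Real.goldenRatio * 12) 20 with h12 | h12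
    · obtain ⟨q2, q5, q7⟩ := k1 (by linarith)
      exact ⟨2, 5, 7, by norm_num, by norm_num, by norm_num, by norm_num, q2, q5, q7⟩
    · have hy : r - 0.02 ≤ X + Real.goldenRatio * 12 - 20 := by
        by_contra hcon
        exact (hq 12 (by norm_num) 20 (by push_cast; linarith) (by push_cast; linarith)).2
          (by push_cast; linarith) q12
      have q1 : q 1 := (hq 1 (by norm_num) 2 (by push_cast; linarith)
        (by push_cast; linarith)).1 (by push_cast; linarith)
      have q3 : q 3 := (hq 3 (by norm_num) 5 (by push_cast; linarith)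
        (by push_cast; linarith)).1 (by push_cast; linarith)
      have q6 : q 6 := (hq 6 (by norm_num) 10 (by push_cast; linarith)
        (by push_cast; linarith)).1 (by push_cast; linarith)
      exact ⟨1, 3, 6, by norm_num, by norm_num, by norm_num, by norm_num, q1, q3, q6⟩

/-- The window property for large `n`. -/
lemma large (n : ℕ) (hn : 715 ≤ n) :
    (n ∈ D → Three (fun j => n + j ∈ D) 14 ∧ (n + 9 ∈ D → Three (fun j => n + j ∈ D) 9) ∧
      (n + 12 ∈ D → Three (fun j => n + j ∈ D) 12)) ∧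
    (n ∈ U → Three (fun j => n + j ∈ U) 14 ∧ (n + 9 ∈ U → Three (fun j => n + j ∈ U) 9) ∧
      (n + 12 ∈ U → Three (fun j => n + j ∈ U) 12)) := by
  obtain ⟨r, hr1, hr2, hr⟩ := threshold n hn
  have hfl := floor_lt n (by omega)
  have hfl2 := Int.lt_floor_add_one (Real.goldenRatio * (n : ℝ))
  set X : ℝ := Real.goldenRatio * n - ⌊Real.goldenRatio * (n : ℝ)⌋ with hX
  -- the fractional part at `n + j`
  have hfr : ∀ j : ℕ, ∀ c : ℤ, 0 ≤ X + Real.goldenRatio * j - c →
      X + Real.goldenRatio * j - c < 1 → fr (n + j) = X + Real.goldenRatio * j - c := by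
    intro j c h1 h2
    have h3 : ⌊Real.goldenRatio * ((n + j : ℕ) : ℝ)⌋ = ⌊Real.goldenRatio * (n : ℝ)⌋ + c := by
      rw [Int.floor_eq_iff]
      push_cast
      constructor
      · linarith
      · linarith
    unfold fr
    rw [h3, hX]
    push_cast
    ring
  constructor
  · intro h0
    apply rot_D (fun j => n + j ∈ D) X r (by linarith) (by linarith) hr1 hr2 _ h0
    intro j hj c h1 h2
    have h3 := hfr j c h1 h2
    obtain ⟨g1, g2⟩ := hr (n + j) (by omega) (by omega)
    rw [h3] at g1 g2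
    exact ⟨fun h => (g1 h).1, fun h => (g2 h).2⟩
  · intro h0
    apply rot_U (fun j => n + j ∈ U) X r (by linarith) (by linarith) hr1 hr2 _ h0
    intro j hj c h1 h2
    have h3 := hfr j c h1 h2
    obtain ⟨g1, g2⟩ := hr (n + j) (by omega) (by omega)
    rw [h3] at g1 g2
    exact ⟨fun h => (g2 h).1, fun h => (g1 h).2⟩

/-! ### The small integers -/

/-- The down-integers below `745`, as a bit mask. -/
def DM : ℕ := 0x84a424252129290949484a4a52525292969494b4a4a5a52d2d2969694b4b5a5a5ad2d6d696b6b4b5b5adadad6d6d6b6b7b5b5bdadeded6f6f6b7b5bdadad6d6b6b4b5a5a52d2969494a4a42521290909494b4b4b5b5b5bdad69484b6a4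

/-- `⌊φ m⌋` for small `m`. -/
def wf (m : ℕ) : ℤ := ((m * 832040 / 514229 : ℕ) : ℤ)

/-- The block of a small integer. -/
def blk (m : ℕ) : ℕ :=
  if m ≤ 2 then 1 else if m ≤ 6 then 2 else if m ≤ 15 then 3 else if m ≤ 40 then 4 else
    if m ≤ 104 then 5 else if m ≤ 273 then 6 else if m ≤ 714 then 7 else 8

/-- The odd one of `blk m`, `blk m + 1`. -/
def iD (m : ℕ) : ℕ := if blk m % 2 = 1 then blk m else blk m + 1

/-- The even one of `blk m`, `blk m + 1`. -/
def iU (m : ℕ) : ℕ := if blk m % 2 = 0 then blk m else blk m + 1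

/-- The data at a small integer are right. -/
def Good (m : ℕ) : Prop :=
  ((2 * wf m - (m : ℤ)) ^ 2 < 5 * (m : ℤ) ^ 2 ∧ 5 * (m : ℤ) ^ 2 < (2 * wf m + 2 - (m : ℤ)) ^ 2) ∧
  (m : ℤ) ≤ 2 * wf m ∧ iD m % 2 = 1 ∧ iU m % 2 = 0 ∧
  (DM.testBit m = true → 1 ≤ V m (wf m) (iD m) ∧ V m (wf m + 1) (iD m + 1) ≤ 0) ∧
  (DM.testBit m = false → 1 ≤ V m (wf m + 1) (iU m) ∧ V m (wf m) (iU m + 1) ≤ 0)

instance (m : ℕ) : Decidable (Good m) := by unfold Good; infer_instance

lemma check_table : ∀ i < 28, ∀ j < 27, 2 ≤ 27 * i + j → 27 * i + j < 745 →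
    Good (27 * i + j) := by
  decide +kernel

lemma floor_small (m : ℕ) (w : ℤ) (h1 : (2 * w - (m : ℤ)) ^ 2 < 5 * (m : ℤ) ^ 2)
    (h2 : 5 * (m : ℤ) ^ 2 < (2 * w + 2 - (m : ℤ)) ^ 2) (h3 : (m : ℤ) ≤ 2 * w) :
    ⌊Real.goldenRatio * (m : ℝ)⌋ = w := by
  have h1' : (2 * (w : ℝ) - m) ^ 2 < 5 * (m : ℝ) ^ 2 := by exact_mod_cast h1
  have h2' : 5 * (m : ℝ) ^ 2 < (2 * (w : ℝ) + 2 - m) ^ 2 := by exact_mod_cast h2
  have h3' : (m : ℝ) ≤ 2 * w := by exact_mod_cast h3
  have h5 : Real.sqrt 5 * m = Real.sqrt (5 * (m : ℝ) ^ 2) := by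
    rw [Real.sqrt_mul (by norm_num), Real.sqrt_sq (by positivity)]
  have h6 : 2 * (w : ℝ) - m < Real.sqrt 5 * m := by
    rw [h5]
    exact Real.lt_sqrt_of_sq_lt h1'
  have h7 : Real.sqrt 5 * m < 2 * (w : ℝ) + 2 - m := by
    rw [h5, Real.sqrt_lt' (by linarith)]
    exact h2'
  rw [Int.floor_eq_iff]
  unfold Real.goldenRatio
  constructor <;> linarith

lemma small (m : ℕ) (h2 : 2 ≤ m) (h : m < 745) :
    (DM.testBit m = true → m ∈ D ∧ m ∉ U) ∧ (DM.testBit m = false → m ∈ U ∧ m ∉ D) := by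
  have hc := check_table (m / 27) (by omega) (m % 27) (Nat.mod_lt _ (by norm_num))
  rw [Nat.div_add_mod] at hc
  obtain ⟨⟨c1, c2⟩, c3, c4, c5, c6, c7⟩ := hc h2 h
  have hf := floor_small m (wf m) c1 c2 c3
  constructor
  · intro hb
    obtain ⟨d1, d2⟩ := c6 hb
    apply D_of m h2 (iD m) c4
    · rw [hf]; exact d1
    · rw [hf]; exact d2
  · intro hb
    obtain ⟨d1, d2⟩ := c7 hb
    apply U_of m h2 (iU m) c5
    · rw [hf]; exact d1
    · rw [hf]; exact d2

lemma small_D (m : ℕ) (h2 : 2 ≤ m) (h : m < 745) : m ∈ D ↔ DM.testBit m = true := by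
  obtain ⟨h3, h4⟩ := small m h2 h
  rcases Bool.eq_false_or_eq_true (DM.testBit m) with hb | hb
  · exact ⟨fun _ => hb, fun _ => (h3 hb).1⟩
  · constructor
    · intro hm
      exact absurd hm (h4 hb).2
    · intro ht
      rw [hb] at ht
      exact absurd ht (by decide)

lemma small_U (m : ℕ) (h2 : 2 ≤ m) (h : m < 745) : m ∈ U ↔ DM.testBit m = false := by
  obtain ⟨h3, h4⟩ := small m h2 h
  rcases Bool.eq_false_or_eq_true (DM.testBit m) with hb | hb
  · constructor
    · intro hm
      exact absurd hm (h3 hb).2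
    · intro ht
      rw [hb] at ht
      exact absurd ht (by decide)
  · exact ⟨fun _ => hb, fun _ => (h4 hb).1⟩

/-- The number of `j < g` with bit `n + j` equal to `v`. -/
def cnt (v : Bool) (n g : ℕ) : ℕ := Nat.count (fun j => DM.testBit (n + j) = v) g

/-- The window property at a small integer. -/
def GoodW (v : Bool) (n : ℕ) : Prop :=
  DM.testBit n = v → 4 ≤ cnt v n 14 ∧ (DM.testBit (n + 9) = v → 4 ≤ cnt v n 9) ∧
    (DM.testBit (n + 12) = v → 4 ≤ cnt v n 12)

instance (v : Bool) (n : ℕ) : Decidable (GoodW v n) := by unfold GoodW; infer_instance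

lemma check_windows : ∀ v : Bool, ∀ i < 27, ∀ j < 27, 2 ≤ 27 * i + j → 27 * i + j < 715 →
    GoodW v (27 * i + j) := by
  decide +kernel

lemma count_congr' (p q : ℕ → Prop) [DecidablePred p] [DecidablePred q] (g : ℕ)
    (h : ∀ j < g, (p j ↔ q j)) :
    Nat.count p g = Nat.count q g :=
  le_antisymm (Nat.count_mono_left fun k hk => (h k hk).1)
    (Nat.count_mono_left fun k hk => (h k hk).2)

open Classical in
lemma Three.count {q : ℕ → Prop} {g : ℕ} (h : Three q g) (h0 : q 0) : 4 ≤ Nat.count q g := by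
  obtain ⟨i, j, k, hi, hij, hjk, hkg, qi, qj, qk⟩ := h
  have h1 : 1 ≤ Nat.count q i := by
    have := Nat.count_strict_mono h0 hi
    omega
  have h2 := Nat.count_strict_mono qi hij
  have h3 := Nat.count_strict_mono qj hjk
  have h4 := Nat.count_strict_mono qk hkg
  omega

open Classical in
/-- The window property for all `n`. -/
lemma window_D (n : ℕ) (h : n ∈ D) : 4 ≤ Nat.count (fun j => n + j ∈ D) 14 ∧
    (n + 9 ∈ D → 4 ≤ Nat.count (fun j => n + j ∈ D) 9) ∧
    (n + 12 ∈ D → 4 ≤ Nat.count (fun j => n + j ∈ D) 12) := by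
  have hn2 : 2 ≤ n := h.1
  rcases lt_or_ge n 715 with hn | hn
  · have hcg : ∀ g ≤ 14, Nat.count (fun j => n + j ∈ D) g = cnt true n g := by
      intro g hg
      unfold cnt
      exact count_congr' _ _ g (fun j hj => small_D (n + j) (by omega) (by omega))
    have hc := check_windows true (n / 27) (by omega) (n % 27) (Nat.mod_lt _ (by norm_num))
    rw [Nat.div_add_mod] at hc
    obtain ⟨c1, c2, c3⟩ := hc hn2 hn ((small_D n hn2 (by omega)).1 h)
    rw [hcg 14 (by norm_num), hcg 9 (by norm_num), hcg 12 (by norm_num)]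
    exact ⟨c1, fun h9 => c2 ((small_D (n + 9) (by omega) (by omega)).1 h9),
      fun h12 => c3 ((small_D (n + 12) (by omega) (by omega)).1 h12)⟩
  · obtain ⟨c1, c2, c3⟩ := (large n hn).1 h
    have h0 : (fun j => n + j ∈ D) 0 := by simpa using h
    exact ⟨c1.count h0, fun h9 => (c2 h9).count h0, fun h12 => (c3 h12).count h0⟩

open Classical in
lemma window_U (n : ℕ) (h : n ∈ U) : 4 ≤ Nat.count (fun j => n + j ∈ U) 14 ∧
    (n + 9 ∈ U → 4 ≤ Nat.count (fun j => n + j ∈ U) 9) ∧
    (n + 12 ∈ U → 4 ≤ Nat.count (fun j => n + j ∈ U) 12) := by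
  have hn2 : 2 ≤ n := h.1
  rcases lt_or_ge n 715 with hn | hn
  · have hcg : ∀ g ≤ 14, Nat.count (fun j => n + j ∈ U) g = cnt false n g := by
      intro g hg
      unfold cnt
      exact count_congr' _ _ g (fun j hj => small_U (n + j) (by omega) (by omega))
    have hc := check_windows false (n / 27) (by omega) (n % 27) (Nat.mod_lt _ (by norm_num))
    rw [Nat.div_add_mod] at hc
    obtain ⟨c1, c2, c3⟩ := hc hn2 hn ((small_U n hn2 (by omega)).1 h)
    rw [hcg 14 (by norm_num), hcg 9 (by norm_num), hcg 12 (by norm_num)]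
    exact ⟨c1, fun h9 => c2 ((small_U (n + 9) (by omega) (by omega)).1 h9),
      fun h12 => c3 ((small_U (n + 12) (by omega) (by omega)).1 h12)⟩
  · obtain ⟨c1, c2, c3⟩ := (large n hn).2 h
    have h0 : (fun j => n + j ∈ U) 0 := by simpa using h
    exact ⟨c1.count h0, fun h9 => (c2 h9).count h0, fun h12 => (c3 h12).count h0⟩

/-! ### The gaps -/

open Classical in
lemma infinite_of (S : Set ℕ) (n0 : ℕ) (h0 : n0 ∈ S)
    (hS : ∀ n ∈ S, 4 ≤ Nat.count (fun j => n + j ∈ S) 14) : S.Infinite := by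
  have key : ∀ n ∈ S, ∃ m ∈ S, n < m := by
    intro n hn
    by_contra hcon
    push Not at hcon
    have h1 := hS n hn
    have h2 : Nat.count (fun j => n + j ∈ S) 14 ≤ Nat.count (fun j => j = 0) 14 := by
      apply Nat.count_mono_left
      intro k _ hk
      have := hcon _ hk
      omega
    have h3 : Nat.count (fun j => j = 0) 14 = 1 := by decide
    omega
  have key2 : ∀ N : ℕ, ∃ m ∈ S, N ≤ m := by
    intro N
    induction N with
    | zero => exact ⟨n0, h0, Nat.zero_le _⟩
    | succ N ih =>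
      obtain ⟨m, hm, hmN⟩ := ih
      obtain ⟨m', hm', hlt⟩ := key m hm
      exact ⟨m', hm', by omega⟩
  apply Set.infinite_of_forall_exists_gt
  intro a
  obtain ⟨m, hm, hlt⟩ := key2 (a + 1)
  exact ⟨m, hm, by omega⟩

open Classical in
lemma gaps_iff (S : Set ℕ) (hS : S.Infinite) (l g : ℕ) :
    g ∈ gaps S l ↔ ∃ n, n ∈ S ∧ n + g ∈ S ∧ Nat.count (fun j => n + j ∈ S) g = l := by
  have hS' : (Set.ofPred (· ∈ S)).Infinite := hS
  constructor
  · rintro ⟨k, rfl⟩
    have h1 : Nat.nth (· ∈ S) k ≤ Nat.nth (· ∈ S) (k + l) :=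
      (Nat.nth_monotone hS') (by omega)
    refine ⟨Nat.nth (· ∈ S) k, Nat.nth_mem_of_infinite hS' k, ?_, ?_⟩
    · rw [Nat.add_sub_cancel' h1]
      exact Nat.nth_mem_of_infinite hS' _
    · have h2 := Nat.count_add (· ∈ S) (Nat.nth (· ∈ S) k)
        (Nat.nth (· ∈ S) (k + l) - Nat.nth (· ∈ S) k)
      rw [Nat.add_sub_cancel' h1, Nat.count_nth_of_infinite hS', Nat.count_nth_of_infinite hS'] at h2
      omega
  · rintro ⟨n, hn, hng, hc⟩
    refine ⟨Nat.count (· ∈ S) n, ?_⟩
    have h2 := Nat.count_add (· ∈ S) n g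
    rw [hc] at h2
    rw [← h2, Nat.nth_count hn, Nat.nth_count hng]
    omega

open Classical in
lemma gap_mem (S : Set ℕ) (g : ℕ)
    (hS : ∀ n ∈ S, 4 ≤ Nat.count (fun j => n + j ∈ S) 14 ∧
      (n + 9 ∈ S → 4 ≤ Nat.count (fun j => n + j ∈ S) 9) ∧
      (n + 12 ∈ S → 4 ≤ Nat.count (fun j => n + j ∈ S) 12))
    (h : ∃ n, n ∈ S ∧ n + g ∈ S ∧ Nat.count (fun j => n + j ∈ S) g = 3) :
    g ∈ ({3, 4, 5, 6, 7, 8, 10, 11, 13} : Set ℕ) := by
  obtain ⟨n, hn, hng, hc⟩ := h
  obtain ⟨h1, h2, h3⟩ := hS n hn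
  have hlow : 3 ≤ g := by
    have := Nat.count_le (p := fun j => n + j ∈ S) (n := g)
    omega
  have hhigh : g ≤ 13 := by
    by_contra hcon
    have := Nat.count_monotone (fun j => n + j ∈ S) (show 14 ≤ g by omega)
    omega
  have h9 : g ≠ 9 := by
    rintro rfl
    have := h2 hng
    omega
  have h12 : g ≠ 12 := by
    rintro rfl
    have := h3 hng
    omega
  simp only [Set.mem_insert_iff, Set.mem_singleton_iff]
  omega

lemma check_ex : ∀ v : Bool, ∀ g ∈ [3, 4, 5, 6, 7, 8, 10, 11, 13],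
    ∃ n < 300, 2 ≤ n ∧ DM.testBit n = v ∧ DM.testBit (n + g) = v ∧ cnt v n g = 3 := by
  decide +kernel

open Classical in
/-- The third-order gaps of the down-integers and of the up-integers in slow Fibonacci walks:
`D_3 = U_3 = {3, 4, 5, 6, 7, 8, 10, 11, 13}`. -/
theorem result : D.Infinite ∧ U.Infinite ∧
    gaps D 3 = {3, 4, 5, 6, 7, 8, 10, 11, 13} ∧ gaps U 3 = {3, 4, 5, 6, 7, 8, 10, 11, 13} := by
  have h2D : 2 ∈ D := (small_D 2 (by norm_num) (by norm_num)).2 (by decide +kernel)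
  have h3U : 3 ∈ U := (small_U 3 (by norm_num) (by norm_num)).2 (by decide +kernel)
  have hD := infinite_of D 2 h2D (fun n hn => (window_D n hn).1)
  have hU := infinite_of U 3 h3U (fun n hn => (window_U n hn).1)
  refine ⟨hD, hU, ?_, ?_⟩
  · ext g
    rw [gaps_iff D hD]
    constructor
    · exact gap_mem D g window_D
    · intro hg
      have hg' : g ∈ [3, 4, 5, 6, 7, 8, 10, 11, 13] := by simpa using hg
      have hle : g ≤ 13 := by
        simp only [Set.mem_insert_iff, Set.mem_singleton_iff] at hg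
        omega
      obtain ⟨n, hn, hn2, h1, h2, h3⟩ := check_ex true g hg'
      refine ⟨n, (small_D n hn2 (by omega)).2 h1, (small_D (n + g) (by omega) (by omega)).2 h2, ?_⟩
      rw [← h3]
      unfold cnt
      exact count_congr' _ _ g (fun j hj => small_D (n + j) (by omega) (by omega))
  · ext g
    rw [gaps_iff U hU]
    constructor
    · exact gap_mem U g window_U
    · intro hg
      have hg' : g ∈ [3, 4, 5, 6, 7, 8, 10, 11, 13] := by simpa using hg
      have hle : g ≤ 13 := by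
        simp only [Set.mem_insert_iff, Set.mem_singleton_iff] at hg
        omega
      obtain ⟨n, hn, hn2, h1, h2, h3⟩ := check_ex false g hg'
      refine ⟨n, (small_U n hn2 (by omega)).2 h1, (small_U (n + g) (by omega) (by omega)).2 h2, ?_⟩
      rw [← h3]
      unfold cnt
      exact count_congr' _ _ g (fun j hj => small_U (n + j) (by omega) (by omega))

end Pool.Agent.Results.MP_e2feb3_nt.ThirdGaps
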